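import Pool.Agent.K1H53.BI.Plan5
import Pool.Agent.K1H39.BI.Gen

/-!
# Green function with the pole near the boundary
-/

set_option autoImplicit false

open scoped ENNReal
open Finset

namespace Pool.Agent.K1H96.BI5

open Pool.Agent.K1H53.BI

lemma nsqr (y : V) : (nsq y : ℝ) = (y 0 : ℝ) ^ 2 + (y 1 : ℝ) ^ 2 + (y 2 : ℝ) ^ 2 := by
  have := Pool.Agent.K1H39.BI.nsq_int y
  exact_mod_cast this

lemma nrm_sq (y : V) : nrm y ^ 2 = nsq y := Real.sq_sqrt (Nat.cast_nonneg _)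

lemma nrm_nonneg (y : V) : 0 ≤ nrm y := Real.sqrt_nonneg _

lemma nrm_le {y : V} {R : ℕ} (h : nsq y ≤ R ^ 2) : nrm y ≤ R := by
  apply Real.sqrt_le_iff.mpr
  exact ⟨Nat.cast_nonneg _, by exact_mod_cast h⟩

lemma cs (a b c u v w : ℝ) :
    (a * u + b * v + c * w) ^ 2 ≤ (a ^ 2 + b ^ 2 + c ^ 2) * (u ^ 2 + v ^ 2 + w ^ 2) := by
  nlinarith [sq_nonneg (a * v - b * u), sq_nonneg (a * w - c * u), sq_nonneg (b * w - c * v)]

lemma dot_le (y : V) (u v w : ℝ) (h : u ^ 2 + v ^ 2 + w ^ 2 = 1) :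
    |(y 0 : ℝ) * u + y 1 * v + y 2 * w| ≤ nrm y := by
  apply abs_le_of_sq_le_sq _ (nrm_nonneg y)
  rw [nrm_sq, nsqr]
  have := cs (y 0) (y 1) (y 2) u v w
  rw [h, mul_one] at this
  exact this

lemma tri (a b : V) : nrm (a - b) ≤ nrm a + nrm b := by
  have h1 : nrm (a - b) ^ 2 ≤ (nrm a + nrm b) ^ 2 := by
    rw [nrm_sq, nsqr]
    simp only [Pi.sub_apply]
    push_cast
    have h2 := cs (a 0) (a 1) (a 2) (b 0) (b 1) (b 2)
    rw [← nsqr, ← nsqr, ← nrm_sq, ← nrm_sq, ← mul_pow] at h2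
    have h3 := abs_le_of_sq_le_sq' h2 (mul_nonneg (nrm_nonneg a) (nrm_nonneg b))
    have ha := nrm_sq a
    have hb := nrm_sq b
    rw [nsqr] at ha hb
    nlinarith [h3.1]
  exact le_of_sq_le_sq h1 (add_nonneg (nrm_nonneg a) (nrm_nonneg b))

lemma av_xyz (F : ℝ → ℝ → ℝ → ℝ) (y : V) :
    av (fun w => F (w 0) (w 1) (w 2)) y =
      (F (y 0 + 1) (y 1) (y 2) + F (y 0 - 1) (y 1) (y 2) + F (y 0) (y 1 + 1) (y 2) +
       F (y 0) (y 1 - 1) (y 2) + F (y 0) (y 1) (y 2 + 1) + F (y 0) (y 1) (y 2 - 1)) / 6 := by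
  unfold av
  simp [Fintype.sum_prod_type, Fin.sum_univ_three, dir, Pi.single_apply, sub_eq_add_neg]
  ring

lemma av_sub (f g : V → ℝ) (y : V) : av (fun w => f w - g w) y = av f y - av g y := by
  unfold av
  rw [Finset.sum_sub_distrib, sub_div]

lemma outer_num (C0 l t n : ℝ) (hC0 : 0 < C0) (hl : 0 < l)
    (hq : 0 ≤ 9 * l * t - 3 * t ^ 2) (hn : l ≤ n) :
    C0 / (l / 2) ≤ 2 * C0 * (9 * l * t - 3 * t ^ 2 + n ^ 2) / l ^ 3 := by
  have h1 : C0 / (l / 2) = 2 * C0 * l ^ 2 / l ^ 3 := by field_simp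
  have h2 : l ^ 2 ≤ n ^ 2 := pow_le_pow_left₀ hl.le hn 2
  have h3 : l ^ 2 ≤ 9 * l * t - 3 * t ^ 2 + n ^ 2 := by linarith
  have h4 : 2 * C0 * l ^ 2 ≤ 2 * C0 * (9 * l * t - 3 * t ^ 2 + n ^ 2) :=
    mul_le_mul_of_nonneg_left h3 (by linarith)
  rw [h1]
  exact div_le_div_of_nonneg_right h4 (by positivity)

lemma outer_q (l t : ℝ) (h0 : 0 ≤ t) (h3 : t ≤ 3 * l) : 0 ≤ 9 * l * t - 3 * t ^ 2 := by
  have := mul_nonneg h0 (sub_nonneg.mpr h3)
  nlinarith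

lemma outer_G {C0 l : ℝ} (hC0 : 0 < C0) (hl : 2 ≤ l) {g : ℝ} {w x : V}
    (hg : g ≤ C0 / √((nsq (w - x) : ℝ) + 1)) (hwx : l - 1 ≤ nrm (w - x)) :
    g ≤ C0 / (l / 2) := by
  refine hg.trans ?_
  have h1 : l / 2 ≤ √((nsq (w - x) : ℝ) + 1) := by
    have h2 : nrm (w - x) ≤ √((nsq (w - x) : ℝ) + 1) := Real.sqrt_le_sqrt (by linarith)
    linarith
  exact div_le_div_of_nonneg_left hC0.le (by linarith) h1

lemma final_num (C0 l H D r G : ℝ) (hC0 : 0 < C0) (hH1 : 1 ≤ H) (hD1 : 1 ≤ D)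
    (hl : l = r / 2) (hlpos : 0 < l) (hr1 : 1 ≤ r) (hr2 : r ^ 2 = D - 1)
    (hmain' : G ≤ 2 * C0 * (9 * l * H - 3 * H ^ 2) / l ^ 3) :
    G ≤ 164 * C0 * H / D := by
  refine hmain'.trans ?_
  have h1 : 2 * C0 * (9 * l * H - 3 * H ^ 2) / l ^ 3 ≤ 2 * C0 * (9 * l * H) / l ^ 3 := by
    apply div_le_div_of_nonneg_right _ (by positivity)
    apply mul_le_mul_of_nonneg_left _ (by linarith)
    have := sq_nonneg H
    linarith
  refine h1.trans ?_
  have h2 : 2 * C0 * (9 * l * H) / l ^ 3 = 18 * C0 * H / l ^ 2 := by field_simp; ring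
  rw [h2, div_le_div_iff₀ (by positivity) (by linarith)]
  have hrr : 1 ≤ r ^ 2 := one_le_pow₀ hr1
  have h3 : D ≤ 8 * l ^ 2 := by
    rw [hl]
    have : 8 * (r / 2) ^ 2 = 2 * r ^ 2 := by ring
    linarith
  have h4 : 0 ≤ C0 * H := by positivity
  have h5 : 0 ≤ l ^ 2 := sq_nonneg l
  calc 18 * C0 * H * D = 18 * (C0 * H) * D := by ring
    _ ≤ 18 * (C0 * H) * (8 * l ^ 2) := mul_le_mul_of_nonneg_left h3 (by linarith)
    _ = 144 * ((C0 * H) * l ^ 2) := by ring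
    _ ≤ 164 * ((C0 * H) * l ^ 2) := by
        have := mul_nonneg h4 h5
        linarith
    _ = 164 * C0 * H * l ^ 2 := by ring

set_option maxHeartbeats 1000000 in
theorem t_U3 : S_U3 := by
  classical
  intro hM hG
  obtain ⟨C0, hC0, hGU⟩ := hG
  refine ⟨164 * C0, by positivity, ?_⟩
  intro R G z x hR hGr hz
  obtain ⟨ρ, hρ⟩ : ∃ ρ, ρ = nrm z := ⟨_, rfl⟩
  have hρR : ρ ≤ R := by rw [hρ]; exact nrm_le hz
  have hρ0 : 0 ≤ ρ := by rw [hρ]; exact nrm_nonneg z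
  obtain ⟨H, hH⟩ : ∃ H, H = (R : ℝ) + 1 - ρ := ⟨_, rfl⟩
  have hH1 : 1 ≤ H := by linarith
  obtain ⟨D, hD⟩ : ∃ D, D = (nsq (x - z) : ℝ) + 1 := ⟨_, rfl⟩
  have hD1 : 1 ≤ D := by
    rw [hD]; have : (0 : ℝ) ≤ nsq (x - z) := Nat.cast_nonneg _
    linarith
  rw [← hρ, ← hH, ← hD]
  by_cases hx : R ^ 2 < nsq x
  · rw [hGr.out x z hx]
    positivity
  push Not at hx
  have hsD : 0 < √D := Real.sqrt_pos.mpr (by linarith)
  have hsq : √D * √D = D := Real.mul_self_sqrt (by linarith)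
  by_cases hs : √D ≤ 20 * H
  · have h1 := hGU R G hGr x z
    rw [← hD] at h1
    refine h1.trans ?_
    rw [div_le_div_iff₀ hsD (by linarith)]
    calc C0 * D = C0 * (√D * √D) := by rw [hsq]
      _ ≤ C0 * (20 * H * √D) := by gcongr
      _ ≤ 164 * C0 * H * √D := by
          have : 0 ≤ C0 * H * √D := by positivity
          nlinarith
  push Not at hs
  obtain ⟨r, hr⟩ : ∃ r, r = nrm (x - z) := ⟨_, rfl⟩
  have hr0 : 0 ≤ r := by rw [hr]; exact nrm_nonneg _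
  have hr2 : r ^ 2 = D - 1 := by rw [hr, nrm_sq, hD]; ring
  have hD400 : 400 * H ^ 2 < D := by nlinarith
  have hr19 : 19 * H < r := by
    apply lt_of_pow_lt_pow_left₀ 2 hr0
    nlinarith
  have hrR : r ≤ R + ρ := by
    rw [hr, hρ]
    exact (tri x z).trans (add_le_add (nrm_le hx) le_rfl)
  have hρpos : 0 < ρ := by
    have : (0 : ℝ) ≤ R := Nat.cast_nonneg R
    nlinarith
  -- the unit vector
  obtain ⟨u0, hu0⟩ : ∃ u0, u0 = (z 0 : ℝ) / ρ := ⟨_, rfl⟩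
  obtain ⟨u1, hu1⟩ : ∃ u1, u1 = (z 1 : ℝ) / ρ := ⟨_, rfl⟩
  obtain ⟨u2, hu2⟩ : ∃ u2, u2 = (z 2 : ℝ) / ρ := ⟨_, rfl⟩
  have hz2 : (z 0 : ℝ) ^ 2 + (z 1 : ℝ) ^ 2 + (z 2 : ℝ) ^ 2 = ρ ^ 2 := by
    rw [hρ, nrm_sq, nsqr]
  have hunit : u0 ^ 2 + u1 ^ 2 + u2 ^ 2 = 1 := by
    rw [hu0, hu1, hu2, div_pow, div_pow, div_pow, ← add_div, ← add_div, hz2, div_self]
    positivity
  have hzu : (z 0 : ℝ) * u0 + z 1 * u1 + z 2 * u2 = ρ := by
    rw [hu0, hu1, hu2]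
    field_simp
    linarith [hz2]
  obtain ⟨l, hl⟩ : ∃ l, l = r / 2 := ⟨_, rfl⟩
  have hl9 : 19 * H < 2 * l := by rw [hl]; linarith
  have hlpos : 0 < l := by linarith
  let t : ℝ → ℝ → ℝ → ℝ := fun a b c => (R : ℝ) + 1 - (a * u0 + b * u1 + c * u2)
  let F : ℝ → ℝ → ℝ → ℝ := fun a b c =>
    2 * C0 * (9 * l * t a b c - 3 * t a b c ^ 2 +
      ((a - z 0) ^ 2 + (b - z 1) ^ 2 + (c - z 2) ^ 2)) / l ^ 3
  have hF : ∀ y : V, av (fun w => F (w 0) (w 1) (w 2)) y = F (y 0) (y 1) (y 2) := by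
    intro y
    rw [av_xyz]
    simp only [F, t]
    field_simp
    linear_combination (-6) * hunit
  have hFy : ∀ y : V, F (y 0) (y 1) (y 2) =
      2 * C0 * (9 * l * t (y 0) (y 1) (y 2) - 3 * t (y 0) (y 1) (y 2) ^ 2 +
        nrm (y - z) ^ 2) / l ^ 3 := by
    intro y
    simp only [F]
    rw [nrm_sq, nsqr]
    simp only [Pi.sub_apply]
    push_cast
    ring
  have htz : t (z 0) (z 1) (z 2) = H := by
    simp only [t]
    rw [hzu, hH]
  let Λ : Finset V := (BR R).filter (fun y => nrm (y - z) < l)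
  have hmemΛ : ∀ y, y ∈ Λ ↔ nsq y ≤ R ^ 2 ∧ nrm (y - z) < l := by
    intro y
    simp only [Λ, Finset.mem_filter, mem_BR]
  have hzz : nrm (z - z) = 0 := by
    rw [sub_self]
    unfold nrm nsq
    simp
  have hzΛ : z ∈ Λ := (hmemΛ z).mpr ⟨hz, by rw [hzz]; exact hlpos⟩
  have hmain := hM Λ (fun y => F (y 0) (y 1) (y 2) - G y x) (by
    intro y hy
    rw [hmemΛ] at hy
    have hyx : y ≠ x := by
      rintro rfl
      rw [← hr] at hy
      linarith [hy.2]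
    rw [av_sub, hF, hGr.eq y x hy.1 hx, if_neg hyx]
    simp) (by
    intro y hy e he
    rw [hmemΛ] at hy he
    obtain ⟨w, hw⟩ : ∃ w, w = y + dir e := ⟨_, rfl⟩
    rw [← hw] at he ⊢
    have hnw : nsq w ≤ (R + 1) ^ 2 := by rw [hw]; exact Pool.Agent.K1H39.BI.nsq_dir_le hy.1 e
    have hwR : nrm w ≤ R + 1 := by
      have := nrm_le hnw
      push_cast at this
      exact this
    have hwz : nrm (w - z) < l + 1 := by
      have h1 : w - z = (y - z) - (-dir e) := by rw [hw]; abel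
      have h2 : nrm (-dir e) = 1 := by
        unfold nrm
        rw [nsqr]
        obtain ⟨i, b⟩ := e
        fin_cases i <;> cases b <;> simp [dir]
      rw [h1]
      exact (tri _ _).trans_lt (by rw [h2]; linarith [hy.2])
    have ht0 : 0 ≤ t (w 0) (w 1) (w 2) := by
      have := (abs_le.mp (dot_le w u0 u1 u2 hunit)).2
      simp only [t]
      linarith
    have ht1 : t (w 0) (w 1) (w 2) ≤ H + (l + 1) := by
      have h1 := (abs_le.mp (dot_le (w - z) u0 u1 u2 hunit)).1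
      simp only [Pi.sub_apply] at h1
      push_cast at h1
      have h2 : t (w 0) (w 1) (w 2) = t (z 0) (z 1) (z 2) -
          (((w 0 : ℝ) - z 0) * u0 + ((w 1 : ℝ) - z 1) * u1 + ((w 2 : ℝ) - z 2) * u2) := by
        simp only [t]; ring
      rw [h2, htz]
      linarith
    have ht3 : t (w 0) (w 1) (w 2) ≤ 3 * l := by linarith
    show 0 ≤ F (w 0) (w 1) (w 2) - G w x
    rw [hFy w]
    have hq : 0 ≤ 9 * l * t (w 0) (w 1) (w 2) - 3 * t (w 0) (w 1) (w 2) ^ 2 := by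
      exact outer_q l _ ht0 ht3
    by_cases hwB : nsq w ≤ R ^ 2
    · have hwl : l ≤ nrm (w - z) := by
        by_contra hc
        exact he ⟨hwB, not_le.mp hc⟩
      have hwx : l - 1 ≤ nrm (w - x) := by
        have h1 : x - z = (w - z) - (w - x) := by abel
        have h2 := tri (w - z) (w - x)
        rw [← h1, ← hr] at h2
        linarith
      have hGw : G w x ≤ C0 / (l / 2) := outer_G hC0 (by linarith) (hGU R G hGr w x) hwx
      have hf := outer_num C0 l (t (w 0) (w 1) (w 2)) (nrm (w - z)) hC0 hlpos hq hwl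
      exact sub_nonneg.mpr (hGw.trans hf)
    · have h0 : G w x = 0 := hGr.out w x (not_le.mp hwB)
      rw [h0, sub_zero]
      apply div_nonneg _ (by positivity)
      have : 0 ≤ nrm (w - z) ^ 2 := sq_nonneg _
      apply mul_nonneg (by positivity)
      linarith) z hzΛ
  have hmain' : G z x ≤ 2 * C0 * (9 * l * H - 3 * H ^ 2) / l ^ 3 := by
    have h1 : 0 ≤ F (z 0) (z 1) (z 2) - G z x := hmain
    rw [hFy z, htz, hzz] at h1
    have : (0 : ℝ) ^ 2 = 0 := by norm_num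
    rw [this, add_zero] at h1
    linarith
  rw [hGr.symm x z]
  exact final_num C0 l H D r _ hC0 hH1 hD1 hl hlpos (by linarith) hr2 hmain'

end Pool.Agent.K1H96.BI5
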